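import Mathlib
import Pool.Agent.Q192.KQ.Defs
import Pool.Agent.Q192.KQ.Main

/-!
# Kane's bound for equal-weight trigonometric quadrature is not sharp

The definitions are in `Pool.Agent.Q192.KQ.Defs`: `trig n` (real trigonometric polynomials of degree
at most `n`), `IsWeight W` (`2π`-periodic weight functions), `HasQuad W n N` (a Chebyshev-type
trigonometric quadrature of degree `n` with exactly `N` nodes), `Ncounts W n` (all `N₀` such that
every `N ≥ N₀` is such a node count), `Nbar W n` (its least element), `kaneSet W n` (the quotients in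
Kane's supremum) and `kane W n` (Kane's quantity `K_W(n)`).

There is a `2π`-periodic weight function `W`, non-zero almost everywhere, with
`liminf Nbar W n / kane W n = 0`.
-/

set_option autoImplicit false

open MeasureTheory

namespace Pool.Agent.Results.MP_8220a0_an.KaneNotSharp

open Pool.Agent.Q192.KQ

theorem result : ∃ W : ℝ → ℝ, IsWeight W ∧ (∀ᵐ θ, W θ ≠ 0) ∧
    ∀ c : ℝ, 0 < c → ∀ n₀ : ℕ, ∃ n ≥ n₀,
      -- Kane's supremum is finite and quadratures with all large numbers of nodes exist
      BddAbove (kaneSet W n) ∧ (Ncounts W n).Nonempty ∧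
      -- but fewer than `c K_W(n)` nodes suffice
      (Nbar W n : ℝ) < c * (kane W n : ℝ) := by
  obtain ⟨W, h1, h2, h3⟩ := main
  refine ⟨W, h1, h2, fun c hc n₀ => ?_⟩
  obtain ⟨k, hk⟩ := exists_nat_gt (1 / c)
  obtain ⟨n, hn, hb, hne, hlt⟩ := h3 (max k n₀)
  refine ⟨n, by have := le_max_right k n₀; omega, hb, hne, ?_⟩
  have h4 : ((max k n₀ : ℕ) : ℝ) + 1 ≥ 1 / c := by
    have : (k : ℝ) ≤ ((max k n₀ : ℕ) : ℝ) := by exact_mod_cast le_max_left k n₀
    linarith
  have h5 : (((max k n₀ : ℕ) : ℝ) + 1) * (Nbar W n : ℝ) < kane W n := by exact_mod_cast hlt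
  have h6 : 1 / c * (Nbar W n : ℝ) < kane W n :=
    lt_of_le_of_lt (mul_le_mul_of_nonneg_right h4 (Nat.cast_nonneg _)) h5
  rw [div_mul_eq_mul_div, one_mul, div_lt_iff₀ hc] at h6
  linarith

end Pool.Agent.Results.MP_8220a0_an.KaneNotSharp
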